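import Mathlib

/-!
Combinatorics of the expansion of the polynomials `rho_i` in terms of the polynomials `tau_j`
for a sequence with `theta_(n+2) = beta * theta_(n+1) - theta_n + gamma`.
-/

namespace Pool.Agent.K4H17.Lower

open Finset

/-- the sequence `theta_0 = x`, `theta_1 = y`, `theta_(n+2) = b theta_(n+1) - theta_n + g` -/
def thSeq {R : Type*} [CommRing R] (x y b g : R) : ℕ → R
  | 0 => x
  | 1 => y
  | (n + 2) => b * thSeq x y b g (n + 1) - thSeq x y b g n + g

/-- the partial sums of `theta_h - theta_(d-h)` -/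
def ph {R : Type*} [CommRing R] (θ : ℕ → R) (d : ℕ) (i : ℕ) : R :=
  ∑ h ∈ range i, (θ h - θ (d - h))

/-- the coefficients of `rho_i` with respect to `tau_j` -/
def cf {R : Type*} [CommRing R] (θ : ℕ → R) (d : ℕ) : ℕ → ℕ → R
  | 0, 0 => 1
  | 0, (_ + 1) => 0
  | (i + 1), 0 => (θ 0 - θ (d - i)) * cf θ d i 0
  | (i + 1), (j + 1) => cf θ d i j + (θ (j + 1) - θ (d - i)) * cf θ d i (j + 1)

section basic

variable {R : Type*} [CommRing R] (θ : ℕ → R) (d : ℕ)

theorem ph_zero : ph θ d 0 = 0 := by simp [ph]

theorem ph_succ (i : ℕ) : ph θ d (i + 1) = ph θ d i + (θ i - θ (d - i)) := by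
  unfold ph
  rw [sum_range_succ]

theorem cf_lt (i j : ℕ) (h : i < j) : cf θ d i j = 0 := by
  induction i generalizing j with
  | zero =>
    obtain ⟨k, rfl⟩ := Nat.exists_eq_add_of_lt h
    simp [cf]
  | succ i ih =>
    obtain ⟨k, rfl⟩ : ∃ k, j = k + 1 := ⟨j - 1, by omega⟩
    rw [cf, ih k (by omega), ih (k + 1) (by omega)]
    simp

theorem cf_self (i : ℕ) : cf θ d i i = 1 := by
  induction i with
  | zero => simp [cf]
  | succ i ih => rw [cf, ih, cf_lt θ d i (i + 1) (by omega)]; simp

/-- antisymmetry of the partial sums -/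
theorem ph_symm (i : ℕ) (hi : i ≤ d + 1) : ph θ d (d + 1 - i) = ph θ d i := by
  have key : ∀ i, i ≤ d + 1 → ph θ d (d + 1) = ph θ d i + (ph θ d (d + 1) - ph θ d i) := by
    intro i _; ring
  -- the sum over `[i, d]` is minus the sum over `[0, d - i]`
  have h1 : ∀ k, k ≤ d + 1 → ph θ d (d + 1) - ph θ d (d + 1 - k) = - ph θ d k := by
    intro k
    induction k with
    | zero => intro _; simp [ph_zero]
    | succ k ih =>
      intro hk
      have h2 := ih (by omega)
      have h3 := ph_succ θ d (d + 1 - (k + 1))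
      have h4 : d + 1 - (k + 1) + 1 = d + 1 - k := by omega
      have h5 : d + 1 - (k + 1) = d - k := by omega
      have h6 : d - (d - k) = k := by omega
      rw [h4, h5, h6] at h3
      rw [h5, ph_succ θ d k]
      linear_combination h2 + h3
  have h0 : ph θ d (d + 1) = 0 := by
    unfold ph
    rw [sum_sub_distrib, sub_eq_zero]
    have := Finset.sum_range_reflect (fun h => θ h) (d + 1)
    rw [← this]
    refine sum_congr rfl fun h hh => ?_
    rw [mem_range] at hh
    congr 1
  have := h1 i hi
  rw [h0] at this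
  linear_combination -this

end basic

section star

variable {R : Type*} [CommRing R] [IsDomain R] [CharZero R] (θ : ℕ → R) (d : ℕ) (b g : R)
  (hθ : ∀ n, n + 2 ≤ d → θ (n + 2) = b * θ (n + 1) - θ n + g)

include hθ

omit [IsDomain R] [CharZero R] in
theorem diff_rec (h : ℕ) (h1 : 1 ≤ h) (h2 : h + 1 ≤ d) :
    (θ (h + 1) - θ (d - (h + 1))) + (θ (h - 1) - θ (d - (h - 1))) =
      b * (θ h - θ (d - h)) := by
  obtain ⟨k, rfl⟩ : ∃ k, h = k + 1 := ⟨h - 1, by omega⟩
  have e1 := hθ k (by omega)
  obtain ⟨l, hl⟩ : ∃ l, d = l + k + 2 := ⟨d - k - 2, by omega⟩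
  have e2 := hθ l (by omega)
  have a1 : d - (k + 1 + 1) = l := by omega
  have a2 : d - (k + 1) = l + 1 := by omega
  have a3 : d - (k + 1 - 1) = l + 2 := by omega
  have a4 : k + 1 - 1 = k := by omega
  rw [a1, a2, a3, a4]
  linear_combination e1 - e2

/-- the key identity -/
theorem star (m c j : ℕ) (hc : c + m = d + 1) (hm : 1 ≤ m) (hj : j ≤ c) :
    (ph θ d (j + m) - ph θ d j) * (θ 0 - θ c) = (θ j - θ (c - j)) * ph θ d m := by
  set F : ℕ → R := fun j => ph θ d (j + m) - ph θ d j with hF
  set G : ℕ → R := fun j => θ j - θ (c - j) with hG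
  have Fsym : ∀ j, j ≤ c → F (c - j) = - F j := by
    intro j hj
    have h1 := ph_symm θ d (j + m) (by omega)
    have h2 := ph_symm θ d j (by omega)
    have a1 : d + 1 - (j + m) = c - j := by omega
    have a2 : d + 1 - j = c - j + m := by omega
    rw [a1] at h1
    rw [a2] at h2
    simp only [hF, h1, h2]
    ring
  have Gsym : ∀ j, j ≤ c → G (c - j) = - G j := by
    intro j hj
    have a1 : c - (c - j) = j := by omega
    simp only [hG, a1]
    ring
  have phrec : ∀ i, 1 ≤ i → i ≤ d → ph θ d (i + 1) + ph θ d (i - 1) - b * ph θ d i =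
      ph θ d 2 - b * ph θ d 1 := by
    intro i hi
    induction i, hi using Nat.le_induction with
    | base => intro _; simp [ph_zero]
    | succ i hi ih =>
      intro h
      have h1 := ih (by omega)
      have h2 := diff_rec θ d b g hθ i hi (by omega)
      have h3 := ph_succ θ d (i + 1)
      have h4 := ph_succ θ d i
      obtain ⟨k, rfl⟩ : ∃ k, i = k + 1 := ⟨i - 1, by omega⟩
      have h5 := ph_succ θ d k
      simp only [Nat.add_sub_cancel] at h1 h2 ⊢
      linear_combination h1 + h2 + h3 - b * h4 + h5
  have Frec : ∀ j, 1 ≤ j → j + 1 ≤ c → F (j + 1) + F (j - 1) = b * F j := by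
    intro j h1 h2
    have e1 := phrec (j + m) (by omega) (by omega)
    have e2 := phrec j h1 (by omega)
    have a1 : j + m - 1 = j - 1 + m := by omega
    have a2 : j + 1 + m = j + m + 1 := by omega
    simp only [hF, a2]
    rw [a1] at e1
    linear_combination e1 - e2
  have Grec : ∀ j, 1 ≤ j → j + 1 ≤ c → G (j + 1) + G (j - 1) = b * G j := by
    intro j h1 h2
    obtain ⟨k, rfl⟩ : ∃ k, j = k + 1 := ⟨j - 1, by omega⟩
    obtain ⟨l, rfl⟩ : ∃ l, c = l + k + 2 := ⟨c - k - 2, by omega⟩
    have e1 := hθ k (by omega)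
    have e2 := hθ l (by omega)
    have a1 : l + k + 2 - (k + 1 + 1) = l := by omega
    have a2 : l + k + 2 - (k + 1) = l + 1 := by omega
    have a3 : l + k + 2 - k = l + 2 := by omega
    have a4 : k + 1 - 1 = k := by omega
    simp only [hG, a1, a2, a3, a4]
    linear_combination e1 - e2
  -- the Wronskian
  have W : ∀ j, j + 1 ≤ c → F (j + 1) * G j - F j * G (j + 1) = F 1 * G 0 - F 0 * G 1 := by
    intro j
    induction j with
    | zero => intro _; simp
    | succ j ih =>
      intro h
      have h1 := ih (by omega)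
      have h2 := Frec (j + 1) (by omega) (by omega)
      have h3 := Grec (j + 1) (by omega) (by omega)
      simp only [Nat.add_sub_cancel] at h2 h3
      linear_combination h1 + G (j + 1) * h2 - F (j + 1) * h3
  rcases Nat.eq_zero_or_pos c with hc0 | hcpos
  · have : j = 0 := by omega
    subst this
    simp [ph_zero, hc0]
  · have W0 : F 1 * G 0 - F 0 * G 1 = 0 := by
      have h1 := W (c - 1) (by omega)
      have a1 : c - 1 + 1 = c - 0 := by omega
      rw [a1, Fsym 0 (by omega), Fsym 1 hcpos, Gsym 1 hcpos, Gsym 0 (by omega)] at h1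
      have h2 : (2 : R) * (F 1 * G 0 - F 0 * G 1) = 0 := by linear_combination -h1
      rcases mul_eq_zero.1 h2 with h3 | h3
      · exact absurd h3 two_ne_zero
      · exact h3
    have main : ∀ j, j ≤ c → F j * G 0 = G j * F 0 := by
      intro j
      induction j using Nat.strong_induction_on with
      | _ j ih =>
        intro hj
        match j with
        | 0 => ring
        | 1 => linear_combination W0
        | (k + 2) =>
          have h1 := ih (k + 1) (by omega) (by omega)
          have h2 := ih k (by omega) (by omega)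
          have h3 := Frec (k + 1) (by omega) (by omega)
          have h4 := Grec (k + 1) (by omega) (by omega)
          simp only [Nat.add_sub_cancel] at h3 h4
          have e1 : F (k + 2) = b * F (k + 1) - F k := by linear_combination h3
          have e2 : G (k + 2) = b * G (k + 1) - G k := by linear_combination h4
          rw [e1, e2]
          linear_combination b * h1 - h2
    have h := main j hj
    simp only [hF, hG, ph_zero, Nat.zero_add, sub_zero, Nat.sub_zero] at h
    exact h

/-- closed form of the coefficients, multiplied by factorial type products -/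
theorem cf_closed (i : ℕ) (hi : i ≤ d) : ∀ j, j ≤ i →
    cf θ d i j * (∏ t ∈ range j, ph θ d (t + 1)) * (∏ t ∈ range (i - j), ph θ d (t + 1)) =
      (∏ t ∈ range i, ph θ d (t + 1)) * ∏ h ∈ range (i - j), (θ 0 - θ (d - h)) := by
  induction i with
  | zero =>
    intro j hj
    have : j = 0 := by omega
    subst this
    simp [cf]
  | succ i ih =>
    intro j hj
    rcases Nat.eq_zero_or_pos j with h0 | h0
    · subst h0
      have h1 := ih (by omega) 0 (by omega)
      simp only [Nat.sub_zero, prod_range_zero, mul_one] at h1 ⊢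
      rw [cf, prod_range_succ (fun t => ph θ d (t + 1)), prod_range_succ (fun h => θ 0 - θ (d - h))]
      linear_combination (θ 0 - θ (d - i)) * ph θ d (i + 1) * h1
    · obtain ⟨k, rfl⟩ : ∃ k, j = k + 1 := ⟨j - 1, by omega⟩
      rcases Nat.eq_or_lt_of_le hj with h2 | h2
      · have : k = i := by omega
        subst this
        rw [cf_self]
        simp
      · have h3 := ih (by omega) k (by omega)
        have h4 := ih (by omega) (k + 1) (by omega)
        obtain ⟨m, rfl⟩ : ∃ m, i = k + 1 + m := ⟨i - (k + 1), by omega⟩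
        have a1 : k + 1 + m - k = m + 1 := by omega
        have a2 : k + 1 + m - (k + 1) = m := by omega
        have a3 : k + 1 + m + 1 - (k + 1) = m + 1 := by omega
        rw [a1] at h3
        rw [a2] at h4
        rw [a3, cf]
        have hs := star θ d b g hθ (m + 1) (d - m) (k + 1) (by omega) (by omega) (by omega)
        have a4 : k + 1 + (m + 1) = k + 1 + m + 1 := by omega
        have a5 : d - m - (k + 1) = d - (k + 1 + m) := by omega
        rw [a4, a5] at hs
        set A := ∏ t ∈ range k, ph θ d (t + 1) with hA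
        set B := ∏ t ∈ range m, ph θ d (t + 1) with hB
        set P := ∏ t ∈ range (k + 1 + m), ph θ d (t + 1) with hP
        set D := ∏ h ∈ range m, (θ 0 - θ (d - h)) with hD
        have eA : ∏ t ∈ range (k + 1), ph θ d (t + 1) = A * ph θ d (k + 1) :=
          prod_range_succ _ _
        have eB : ∏ t ∈ range (m + 1), ph θ d (t + 1) = B * ph θ d (m + 1) :=
          prod_range_succ _ _
        have eP : ∏ t ∈ range (k + 1 + m + 1), ph θ d (t + 1) = P * ph θ d (k + 1 + m + 1) :=
          prod_range_succ _ _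
        have eD : ∏ h ∈ range (m + 1), (θ 0 - θ (d - h)) = D * (θ 0 - θ (d - m)) :=
          prod_range_succ _ _
        rw [eB, eD] at h3
        rw [eA] at h4
        rw [eA, eB, eP, eD]
        linear_combination ph θ d (k + 1) * h3 +
          (θ (k + 1) - θ (d - (k + 1 + m))) * ph θ d (m + 1) * h4 - P * D * hs

/-- the lowering relation for the coefficients, when the partial sums are nonzero -/
theorem cf_lower (hne : ∀ t, 1 ≤ t → t ≤ d → ph θ d t ≠ 0) (i j : ℕ) (hi : i + 1 ≤ d)
    (hj : j ≤ i) :
    ph θ d (j + 1) * cf θ d (i + 1) (j + 1) = ph θ d (i + 1) * cf θ d i j := by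
  have h1 := cf_closed θ d b g hθ (i + 1) hi (j + 1) (by omega)
  have h2 := cf_closed θ d b g hθ i (by omega) j hj
  have a1 : i + 1 - (j + 1) = i - j := by omega
  rw [a1, prod_range_succ _ j, prod_range_succ _ i] at h1
  have hA : (∏ t ∈ range j, ph θ d (t + 1)) ≠ 0 :=
    prod_ne_zero_iff.2 fun t ht => hne _ (by omega) (by rw [mem_range] at ht; omega)
  have hB : (∏ t ∈ range (i - j), ph θ d (t + 1)) ≠ 0 :=
    prod_ne_zero_iff.2 fun t ht => hne _ (by omega) (by rw [mem_range] at ht; omega)
  apply mul_right_cancel₀ (mul_ne_zero hA hB)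
  linear_combination h1 - ph θ d (i + 1) * h2

end star

section transfer

theorem map_thSeq {R S : Type*} [CommRing R] [CommRing S] (f : R →+* S) (x y b g : R) (n : ℕ) :
    f (thSeq x y b g n) = thSeq (f x) (f y) (f b) (f g) n := by
  induction n using Nat.strong_induction_on with
  | _ n ih =>
    match n with
    | 0 => simp [thSeq]
    | 1 => simp [thSeq]
    | (k + 2) =>
      rw [thSeq, thSeq, map_add, map_sub, map_mul, ih (k + 1) (by omega), ih k (by omega)]

theorem map_ph {R S : Type*} [CommRing R] [CommRing S] (f : R →+* S) (θ : ℕ → R) (d i : ℕ) :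
    f (ph θ d i) = ph (fun n => f (θ n)) d i := by
  simp [ph, map_sum]

theorem map_cf {R S : Type*} [CommRing R] [CommRing S] (f : R →+* S) (θ : ℕ → R) (d i j : ℕ) :
    f (cf θ d i j) = cf (fun n => f (θ n)) d i j := by
  induction i generalizing j with
  | zero =>
    cases j with
    | zero => simp [cf]
    | succ j => simp [cf]
  | succ i ih =>
    cases j with
    | zero => simp [cf, ih]
    | succ j => simp [cf, ih]

theorem thSeq_id (n : ℕ) : thSeq (0 : ℤ) 1 2 0 n = n := by
  induction n using Nat.strong_induction_on with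
  | _ n ih =>
    match n with
    | 0 => simp [thSeq]
    | 1 => simp [thSeq]
    | (k + 2) =>
      rw [thSeq, ih (k + 1) (by omega), ih k (by omega)]
      push_cast
      ring

theorem ph_id (d t : ℕ) (ht : t ≤ d + 1) : ph (fun n => (n : ℤ)) d t = - (t * ((d : ℤ) + 1 - t)) := by
  induction t with
  | zero => simp [ph_zero]
  | succ t ih =>
    rw [ph_succ, ih (by omega)]
    have : ((d - t : ℕ) : ℤ) = (d : ℤ) - t := by
      rw [Nat.cast_sub (by omega)]
    rw [this]
    push_cast
    ring

/-- the lowering relation for the coefficients over every commutative ring -/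
theorem cf_lower_all {R : Type*} [CommRing R] (x y b g : R) (d i j : ℕ) (hi : i + 1 ≤ d)
    (hj : j ≤ i) :
    ph (thSeq x y b g) d (j + 1) * cf (thSeq x y b g) d (i + 1) (j + 1) =
      ph (thSeq x y b g) d (i + 1) * cf (thSeq x y b g) d i j := by
  let P := MvPolynomial (Fin 4) ℤ
  let X : Fin 4 → P := MvPolynomial.X
  let Θ : ℕ → P := thSeq (X 0) (X 1) (X 2) (X 3)
  have hne : ∀ t, 1 ≤ t → t ≤ d → ph Θ d t ≠ 0 := by
    intro t h1 h2 h0
    let e : P →+* ℤ := (MvPolynomial.aeval (![0, 1, 2, 0] : Fin 4 → ℤ)).toRingHom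
    have h3 : e (ph Θ d t) = 0 := by rw [h0, map_zero]
    rw [map_ph] at h3
    have h4 : (fun n => e (Θ n)) = fun n : ℕ => (n : ℤ) := by
      funext n
      have eX : ∀ i, e (X i) = (![0, 1, 2, 0] : Fin 4 → ℤ) i := fun i => MvPolynomial.aeval_X _ i
      rw [map_thSeq, eX, eX, eX, eX]
      exact thSeq_id n
    rw [h4, ph_id d t (by omega)] at h3
    have h5 : (t : ℤ) * ((d : ℤ) + 1 - t) = 0 := by linarith
    rcases mul_eq_zero.1 h5 with h6 | h6 <;> omega
  have hrec : ∀ n, n + 2 ≤ d → Θ (n + 2) = X 2 * Θ (n + 1) - Θ n + X 3 := fun n _ => rfl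
  have key := cf_lower Θ d (X 2) (X 3) hrec hne i j hi hj
  let f : P →+* R := (MvPolynomial.aeval (![x, y, b, g] : Fin 4 → R)).toRingHom
  have h4 : (fun n => f (Θ n)) = thSeq x y b g := by
    funext n
    have fX : ∀ i, f (X i) = (![x, y, b, g] : Fin 4 → R) i := fun i => MvPolynomial.aeval_X _ i
    rw [map_thSeq, fX, fX, fX, fX]
    rfl
  have := congrArg f key
  rw [map_mul, map_mul, map_ph, map_ph, map_cf, map_cf, h4] at this
  exact this

end transfer

end Pool.Agent.K4H17.Lower
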